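import Mathlib

set_option autoImplicit false

namespace Pool.Agent.H.MP_e38963_al

open Filter Topology

section Fin
variable {A : Type} [CStarAlgebra A]

lemma polar (a : A) (δ : ℝ) (hδ : δ ≤ 1 / 2) (h1 : ‖star a * a - 1‖ ≤ δ)
    (h2 : ‖a * star a - 1‖ ≤ δ) : ∃ u ∈ unitary A, ‖u - a‖ ≤ 4 * δ := by
  have h0 : 0 ≤ δ := (norm_nonneg _).trans h1
  set b := star a * a with hb
  have hsa : IsSelfAdjoint b := IsSelfAdjoint.star_mul_self a
  have hsp : ∀ t ∈ spectrum ℝ b, |t - 1| ≤ δ := fun t ht => by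
    have := norm_apply_le_norm_cfc (fun t : ℝ => t - 1) b ht
    rw [cfc_sub (fun t : ℝ => t) (fun _ => 1) b, cfc_id' ℝ b, cfc_const_one ℝ b] at this
    exact this.trans h1
  have hpos : ∀ t ∈ spectrum ℝ b, 1 / 2 ≤ t := fun t ht => by
    have := abs_le.1 (hsp t ht); linarith
  have hc : ContinuousOn (fun t : ℝ => (√t)⁻¹) (spectrum ℝ b) :=
    Real.continuous_sqrt.continuousOn.inv₀ fun t ht =>
      (Real.sqrt_pos.2 (by linarith [hpos t ht])).ne'
  set s := cfc (fun t : ℝ => (√t)⁻¹) b with hs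
  have hss : star s = s := (cfc_predicate _ b : IsSelfAdjoint _)
  have e1 : s * b * s = 1 := by
    have : s * b * s = cfc (fun t : ℝ => (√t)⁻¹ * t * (√t)⁻¹) b := by
      rw [cfc_mul (fun t : ℝ => (√t)⁻¹ * t) _ b (hc.mul continuousOn_id) hc,
        cfc_mul _ (fun t : ℝ => t) b hc continuousOn_id, cfc_id' ℝ b]
    rw [this, ← cfc_const_one ℝ b]
    refine cfc_congr fun t ht => ?_
    have h3 : 0 < t := by linarith [hpos t ht]
    have h4 := Real.sqrt_pos.2 h3
    have h5 := Real.mul_self_sqrt h3.le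
    field_simp
    linarith
  have hu : IsUnit (a * star a) := by
    have : ‖1 - a * star a‖ < 1 := by rw [norm_sub_rev]; linarith
    simpa using (Units.oneSub _ this).isUnit
  obtain ⟨w, hw⟩ := hu.exists_right_inv
  have e2 : star (a * s) * (a * s) = 1 := by
    rw [star_mul, hss, ← e1, hb]; simp only [mul_assoc]
  have e3 : (a * s) * (b * s * (star a * w)) = 1 := by
    calc _ = a * (s * b * s) * star a * w := by simp only [mul_assoc]
      _ = 1 := by rw [e1, mul_one, hw]
  have e4 : (a * s) * star (a * s) = 1 := by rw [left_inv_eq_right_inv e2 e3]; exact e3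
  refine ⟨a * s, ⟨e2, e4⟩, ?_⟩
  have n1 : ‖a‖ ≤ 2 := by
    have : ‖b‖ ≤ 4 := by
      rw [← cfc_id' ℝ b]
      refine norm_cfc_le (by norm_num) fun t ht => ?_
      have := abs_le.1 (hsp t ht)
      rw [Real.norm_eq_abs, abs_le]; constructor <;> linarith
    rw [hb, CStarRing.norm_star_mul_self] at this
    nlinarith [norm_nonneg a]
  have n2 : ‖s - 1‖ ≤ 2 * δ := by
    rw [hs, ← cfc_const_one ℝ b, ← cfc_sub _ _ b hc continuousOn_const]
    refine norm_cfc_le (by linarith) fun t ht => ?_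
    have h3 := hpos t ht
    have h4 : 1 / 2 ≤ √t := Real.le_sqrt_of_sq_le (by linarith)
    have h5 := Real.mul_self_sqrt (show 0 ≤ t by linarith)
    have h6 := abs_le.1 (hsp t ht)
    have h7 : 0 < √t := by linarith
    have h8 : (√t)⁻¹ - 1 = (1 - t) / (√t * (1 + √t)) := by
      field_simp; nlinarith
    rw [Real.norm_eq_abs, h8, abs_div, abs_of_pos (by positivity : 0 < √t * (1 + √t)),
      div_le_iff₀ (by positivity), abs_sub_comm]
    nlinarith [hsp t ht]
  calc ‖a * s - a‖ = ‖a * (s - 1)‖ := by rw [mul_sub, mul_one]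
    _ ≤ ‖a‖ * ‖s - 1‖ := norm_mul_le _ _
    _ ≤ 2 * (2 * δ) := by gcongr
    _ = _ := by ring

variable {F : Type} [Group F] [Fintype F]

lemma avg_le (f : F → A) (c : ℝ) (h : ∀ z, ‖f z‖ ≤ c) :
    ‖((Fintype.card F : ℂ)⁻¹) • ∑ z, f z‖ ≤ c := by
  have hN : (0 : ℝ) < Fintype.card F := by exact_mod_cast Fintype.card_pos
  rw [norm_smul, norm_inv, Complex.norm_natCast, inv_mul_le_iff₀ hN]
  refine (norm_sum_le _ _).trans ?_
  simpa using Finset.sum_le_card_nsmul Finset.univ (fun z => ‖f z‖) c fun z _ => h z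

lemma avg_const (a : A) : ((Fintype.card F : ℂ)⁻¹) • ∑ _z : F, a = a := by
  have hN : (Fintype.card F : ℂ) ≠ 0 := by exact_mod_cast Fintype.card_ne_zero
  rw [Finset.sum_const, Finset.card_univ, ← Nat.cast_smul_eq_nsmul ℂ, smul_smul,
    inv_mul_cancel₀ hN, one_smul]

lemma step (π : F → A) (hπ : ∀ g, π g ∈ unitary A) (ε : ℝ) (hε : ε ≤ 1 / 52)
    (h : ∀ g k, ‖π (g * k) - π g * π k‖ ≤ ε) :
    ∃ π' : F → A, (∀ g, π' g ∈ unitary A) ∧ (∀ g k, ‖π' (g * k) - π' g * π' k‖ ≤ ε / 2) ∧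
      ∀ g, ‖π g - π' g‖ ≤ 2 * ε := by
  have h0 : 0 ≤ ε := (norm_nonneg _).trans (h 1 1)
  rcases subsingleton_or_nontrivial A with hA | hA
  · exact ⟨π, hπ, fun g k => by rw [Subsingleton.elim (_ - _) 0, norm_zero]; linarith,
      fun g => by rw [sub_self, norm_zero]; linarith⟩
  set N : ℂ := (Fintype.card F : ℂ)⁻¹ with hN
  let p : F → A := fun x => N • ∑ z, π (x * z) * star (π z)
  have n1 : ∀ g, ‖π g‖ = 1 := fun g => CStarRing.norm_of_mem_unitary (hπ g)
  have u1 : ∀ g, π g * star (π g) = 1 := fun g => (hπ g).2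
  have p1 : p 1 = 1 := by simp only [p, one_mul, u1]; exact avg_const 1
  have pn : ∀ x, ‖p x‖ ≤ 1 := fun x => avg_le _ _ fun z =>
    (norm_mul_le _ _).trans (by rw [norm_star, n1, n1, one_mul])
  have ps : ∀ y, star (p y⁻¹) = p y := fun y => by
    simp only [p, star_smul, star_sum, star_mul, star_star, hN, star_inv₀, star_natCast]
    congr 1
    exact Fintype.sum_equiv (Equiv.mulLeft y⁻¹) _ _ fun z => by simp
  have pd : ∀ x, ‖p x - π x‖ ≤ ε := fun x => by
    have : p x - π x = N • ∑ z, (π (x * z) - π x * π z) * star (π z) := by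
      simp only [p, sub_mul, Finset.sum_sub_distrib, smul_sub, mul_assoc, u1, mul_one]
      rw [avg_const]
    rw [this]
    exact avg_le _ _ fun z => (norm_mul_le _ _).trans (by rw [norm_star, n1, mul_one]; exact h _ _)
  have pm : ∀ x y, ‖p (x * y) - p x * p y‖ ≤ 2 * ε ^ 2 := fun x y => by
    have e1 : N • ∑ z, (π (x * z) - π x * π z) * star (π (y⁻¹ * z) - π y⁻¹ * π z) =
        p (x * y) - p x * star (π y⁻¹) - π x * p y + π x * star (π y⁻¹) := by
      have a1 : p (x * y) = N • ∑ z, π (x * z) * star (π (y⁻¹ * z)) := by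
        simp only [p]
        congr 1
        exact Fintype.sum_equiv (Equiv.mulLeft y) _ _ fun z => by simp [mul_assoc]
      have a2 : p x * star (π y⁻¹) = N • ∑ z, π (x * z) * (star (π z) * star (π y⁻¹)) := by
        simp only [p, smul_mul_assoc, Finset.sum_mul, mul_assoc]
      have a3 : π x * p y = N • ∑ z, π x * π z * star (π (y⁻¹ * z)) := by
        rw [← ps y]
        simp only [p, star_smul, star_sum, star_mul, star_star, hN, star_inv₀, star_natCast,
          mul_smul_comm, Finset.mul_sum, mul_assoc]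
      have a4 : π x * star (π y⁻¹) = N • ∑ z, π x * π z * (star (π z) * star (π y⁻¹)) := by
        have : ∀ z, π x * π z * (star (π z) * star (π y⁻¹)) = π x * star (π y⁻¹) := fun z => by
          rw [mul_assoc, ← mul_assoc (π z), u1, one_mul]
        simp only [this]; rw [avg_const]
      rw [a1, a2, a3, a4, ← smul_sub, ← smul_sub, ← smul_add, ← Finset.sum_sub_distrib,
        ← Finset.sum_sub_distrib, ← Finset.sum_add_distrib]
      congr 1
      refine Finset.sum_congr rfl fun z _ => ?_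
      rw [star_sub, star_mul]; noncomm_ring
    have b1 : ‖p (x * y) - p x * star (π y⁻¹) - π x * p y + π x * star (π y⁻¹)‖ ≤ ε * ε := by
      rw [← e1]
      exact avg_le _ _ fun z => (norm_mul_le _ _).trans (by
        rw [norm_star]; exact mul_le_mul (h _ _) (h _ _) (norm_nonneg _) h0)
    have b2 : ‖(p x - π x) * (p y - star (π y⁻¹))‖ ≤ ε * ε := by
      refine (norm_mul_le _ _).trans (mul_le_mul (pd x) ?_ (norm_nonneg _) h0)
      rw [← ps y, ← star_sub, norm_star]; exact pd _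
    have e2 : p (x * y) - p x * p y =
        (p (x * y) - p x * star (π y⁻¹) - π x * p y + π x * star (π y⁻¹)) -
          (p x - π x) * (p y - star (π y⁻¹)) := by noncomm_ring
    rw [e2]
    refine (norm_sub_le _ _).trans ?_
    nlinarith
  have hp : ∀ x, ∃ u ∈ unitary A, ‖u - p x‖ ≤ 4 * (2 * ε ^ 2) := fun x => by
    have s1 : star (p x) = p x⁻¹ := by rw [← ps x⁻¹, inv_inv]
    refine polar _ _ (by nlinarith) ?_ ?_
    · rw [s1, norm_sub_rev, ← p1, ← inv_mul_cancel x]; exact pm _ _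
    · rw [s1, norm_sub_rev, ← p1, ← mul_inv_cancel x]; exact pm _ _
  choose u hu hd using hp
  refine ⟨u, hu, fun g k => ?_, fun g => ?_⟩
  · have e : u (g * k) - u g * u k = (u (g * k) - p (g * k)) + (p (g * k) - p g * p k)
        - (u g - p g) * p k - u g * (u k - p k) := by noncomm_ring
    have b1 : ‖(u g - p g) * p k‖ ≤ 4 * (2 * ε ^ 2) * 1 :=
      (norm_mul_le _ _).trans (mul_le_mul (hd g) (pn k) (norm_nonneg _) (by positivity))
    have b2 : ‖u g * (u k - p k)‖ ≤ 4 * (2 * ε ^ 2) :=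
      (norm_mul_le _ _).trans (by rw [CStarRing.norm_of_mem_unitary (hu g), one_mul]; exact hd k)
    rw [e]
    have b3 := norm_sub_le ((u (g * k) - p (g * k)) + (p (g * k) - p g * p k)
        - (u g - p g) * p k) (u g * (u k - p k))
    have b4 := norm_sub_le ((u (g * k) - p (g * k)) + (p (g * k) - p g * p k))
        ((u g - p g) * p k)
    have b5 := norm_add_le (u (g * k) - p (g * k)) (p (g * k) - p g * p k)
    have := hd (g * k)
    have := pm g k
    nlinarith
  · have e : π g - u g = -(p g - π g) - (u g - p g) := by abel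
    rw [e]
    refine (norm_sub_le _ _).trans ?_
    rw [norm_neg]
    have := pd g
    have := hd g
    nlinarith

theorem fin_stable (π : F → unitary A) (ε : ℝ) (hε : ε ≤ 1 / 52)
    (h : ∀ g k, ‖(π (g * k) : A) - π g * π k‖ ≤ ε) :
    ∃ ρ : F →* unitary A, ∀ g, ‖(π g : A) - ρ g‖ ≤ 4 * ε := by
  have h0 : 0 ≤ ε := (norm_nonneg _).trans (h 1 1)
  let P : ℕ → (F → A) → Prop := fun n q =>
    (∀ g, q g ∈ unitary A) ∧ ∀ g k, ‖q (g * k) - q g * q k‖ ≤ ε / 2 ^ n
  have hs : ∀ n q, P n q → ∃ q', P (n + 1) q' ∧ ∀ g, ‖q g - q' g‖ ≤ 4 * ε / 2 / 2 ^ n := by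
    intro n q hq
    have : ε / 2 ^ n ≤ ε := div_le_self h0 (one_le_pow₀ (by norm_num))
    obtain ⟨q', a, b, c⟩ := step q hq.1 _ (this.trans hε) hq.2
    refine ⟨q', ⟨a, fun g k => (b g k).trans_eq (by ring)⟩, fun g => (c g).trans_eq (by ring)⟩
  choose! f hf using hs
  let s : ℕ → F → A := fun n => Nat.rec (fun g => (π g : A)) f n
  have hP : ∀ n, P n (s n) := fun n => by
    induction n with
    | zero => exact ⟨fun g => (π g).2, fun g k => (h g k).trans_eq (by simp)⟩
    | succ n ih => exact (hf n _ ih).1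
  have hd : ∀ g n, dist (s n g) (s (n + 1) g) ≤ 4 * ε / 2 / 2 ^ n := fun g n => by
    rw [dist_eq_norm]; exact (hf n _ (hP n)).2 g
  choose r hr using fun g => cauchySeq_tendsto_of_complete (cauchySeq_of_le_geometric_two (hd g))
  have hu : ∀ g, r g ∈ unitary A := fun g =>
    ⟨tendsto_nhds_unique ((hr g).star.mul (hr g))
      (tendsto_const_nhds.congr fun n => ((hP n).1 g).1.symm),
     tendsto_nhds_unique ((hr g).mul (hr g).star)
      (tendsto_const_nhds.congr fun n => ((hP n).1 g).2.symm)⟩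
  have hm : ∀ g k, r (g * k) = r g * r k := fun g k => by
    rw [← sub_eq_zero]
    refine tendsto_nhds_unique ((hr (g * k)).sub ((hr g).mul (hr k))) ?_
    refine squeeze_zero_norm (fun n => (hP n).2 g k) ?_
    exact tendsto_const_nhds.div_atTop (tendsto_pow_atTop_atTop_of_one_lt (by norm_num))
  refine ⟨MonoidHom.mk' (fun g => ⟨r g, hu g⟩) fun g k => Subtype.ext (hm g k), fun g => ?_⟩
  have := dist_le_of_le_geometric_two_of_tendsto₀ (hd g) (hr g)
  rwa [dist_eq_norm] at this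

end Fin

lemma diag (P : ℕ → ℕ → Prop) (h : ∀ m, ∀ᶠ n in atTop, P m n) :
    ∃ m : ℕ → ℕ, Tendsto m atTop atTop ∧ ∀ᶠ n in atTop, P (m n) n := by
  classical
  refine ⟨fun n => Nat.findGreatest (fun m => P m n) n, tendsto_atTop.2 fun M => ?_, ?_⟩
  · filter_upwards [h M, eventually_ge_atTop M] with n h1 h2
    exact Nat.le_findGreatest h2 h1
  · filter_upwards [h 0] with n h1
    exact Nat.findGreatest_spec (P := fun m => P m n) (Nat.zero_le n) h1

/-- stability with respect to all sequences of unital C*-algebras -/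
def WS (G : Type) [Group G] : Prop :=
  ∀ (B : ℕ → Type) [∀ n, CStarAlgebra (B n)] (φ : ∀ n, G → unitary (B n)),
    (∀ g h, Tendsto (fun n => ‖(φ n (g * h) : B n) - φ n g * φ n h‖) atTop (𝓝 0)) →
    ∃ ψ : ∀ n, G →* unitary (B n), ∀ g, Tendsto (fun n => ‖(φ n g : B n) - ψ n g‖) atTop (𝓝 0)

theorem ws_of_retracts {G : Type} [Group G] (S : ℕ → Subgroup G) [∀ n, Finite (S n)]
    (r : ∀ n, G →* S n) (hr : ∀ n (x : S n), r n x = x) (hS : ∀ x, ∀ᶠ n in atTop, x ∈ S n) :
    WS G := by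
  classical
  intro B _ φ hφ
  obtain ⟨m, hm, hP⟩ := diag (fun m n => ∀ g k : S m,
      ‖(φ n (g * k) : B n) - φ n g * φ n k‖ ≤ 1 / ((m : ℝ) + 52)) fun m => by
    refine eventually_all.2 fun g => eventually_all.2 fun k => ?_
    exact (hφ g k).eventually_le_const (by positivity)
  have key : ∀ n, ∃ ρ : G →* unitary (B n), (∀ g k : S (m n),
      ‖(φ n (g * k) : B n) - φ n g * φ n k‖ ≤ 1 / ((m n : ℝ) + 52)) →
      ∀ g ∈ S (m n), ‖(φ n g : B n) - ρ g‖ ≤ 4 * (1 / ((m n : ℝ) + 52)) := fun n => by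
    by_cases h : ∀ g k : S (m n), ‖(φ n (g * k) : B n) - φ n g * φ n k‖ ≤ 1 / ((m n : ℝ) + 52)
    · let _ : Fintype (S (m n)) := Fintype.ofFinite _
      obtain ⟨ρ, hρ⟩ := fin_stable (fun x : S (m n) => φ n x) _
        (one_div_le_one_div_of_le (by norm_num) (by linarith [Nat.cast_nonneg (α := ℝ) (m n)])) h
      refine ⟨ρ.comp (r _), fun _ g hg => ?_⟩
      rw [MonoidHom.comp_apply, hr _ ⟨g, hg⟩]
      exact hρ ⟨g, hg⟩
    · exact ⟨1, fun h' => absurd h' h⟩
  choose ρ hρ using key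
  refine ⟨ρ, fun g => ?_⟩
  have t : Tendsto (fun n => 4 * (1 / ((m n : ℝ) + 52))) atTop (𝓝 0) := by
    have := (tendsto_const_nhds (x := (1 : ℝ))).div_atTop
      (tendsto_atTop_add_const_right _ 52 (tendsto_natCast_atTop_atTop.comp hm))
    simpa using this.const_mul 4
  refine squeeze_zero' (Eventually.of_forall fun n => norm_nonneg _) ?_ t
  filter_upwards [hP, hm.eventually (hS g)] with n h1 h2
  exact hρ n h1 g h2

end Pool.Agent.H.MP_e38963_al
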