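import Pool.Agent.H.MP_e38963_al.A
import Pool.Agent.H.MP_94dfa5_al.A

set_option autoImplicit false

namespace Pool.Agent.H.MP_e38963_al

open Filter Topology
open scoped Matrix.Norms.L2Operator

abbrev U (k : ℕ) := Matrix.unitaryGroup (Fin k) ℂ

def MS (G : Type) [Group G] : Prop :=
  ∀ (k : ℕ → ℕ), (∀ n, 0 < k n) → ∀ (φ : ∀ n, G → U (k n)),
    (∀ g h, Tendsto (fun n => ‖(φ n (g * h)).val - (φ n g).val * (φ n h).val‖) atTop (𝓝 0)) →
    ∃ ψ : ∀ n, G →* U (k n), ∀ g, Tendsto (fun n => ‖(φ n g).val - (ψ n g).val‖) atTop (𝓝 0)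

theorem WS.ms {G : Type} [Group G] (h : WS G) : MS G := fun k _ φ hφ =>
  h (fun n => Matrix (Fin (k n)) (Fin (k n)) ℂ) φ hφ

theorem WS.of_equiv {G H : Type} [Group G] [Group H] (e : G ≃* H) (h : WS G) : WS H := by
  intro B _ φ hφ
  obtain ⟨ψ, hψ⟩ := h B (fun n g => φ n (e g)) fun g h => by simpa using hφ (e g) (e h)
  exact ⟨fun n => (ψ n).comp e.symm.toMonoidHom, fun g => by simpa using hψ (e.symm g)⟩

noncomputable def pu {X : Type} [Fintype X] [DecidableEq X] :
    Equiv.Perm X →* Matrix.unitaryGroup X ℂ :=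
  (Matrix.permMatrixHom (R := ℂ)).codRestrict _ fun σ => by
    rw [Matrix.mem_unitaryGroup_iff, Matrix.star_eq_conjTranspose]
    simp [← Matrix.permMatrix_mul]

lemma pu_inj {X : Type} [Fintype X] [DecidableEq X] (σ : Equiv.Perm X) (h : pu σ = 1) : σ = 1 := by
  ext x
  have := congrFun (congrFun (congrArg Subtype.val h) (σ x)) x
  by_contra hx
  simp [pu, Matrix.one_apply] at this
  exact hx this

section
variable {A : Type} [CStarAlgebra A]

lemma n_mul (a b : unitary A) : ‖((a * b : unitary A) : A) - 1‖ ≤ ‖(a : A) - 1‖ + ‖(b : A) - 1‖ := by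
  have : ((a * b : unitary A) : A) - 1 = a * ((b : A) - 1) + (a - 1) := by
    push_cast; noncomm_ring
  rw [this, add_comm ‖_‖]
  exact (norm_add_le _ _).trans (by rw [CStarRing.norm_coe_unitary_mul])

lemma n_comm (x y f : unitary A) (h : y * f = f * y) :
    ‖((x * f * x⁻¹ * f⁻¹ : unitary A) : A) - 1‖ ≤ 2 * ‖(x : A) - y‖ := by
  have h' : (y : A) * f = f * y := by exact_mod_cast congrArg Subtype.val h
  rw [← CStarRing.norm_mul_coe_unitary _ (f * x)]
  have e1 : (x * f * x⁻¹ * f⁻¹) * (f * x) = x * f := by group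
  have e2 : (((x * f * x⁻¹ * f⁻¹ : unitary A) : A) - 1) * (f * x : unitary A) =
      ((x : A) - y) * f - f * ((x : A) - y) := by
    rw [sub_mul, ← Submonoid.coe_mul, e1]; push_cast
    rw [sub_mul, mul_sub, h', one_mul]; abel
  rw [e2]
  refine (norm_sub_le _ _).trans ?_
  rw [CStarRing.norm_mul_coe_unitary, CStarRing.norm_coe_unitary_mul]; linarith

lemma n_invol (u : unitary A) (h : u * u = 1) (h1 : u ≠ 1) : 2 ≤ ‖(u : A) - 1‖ := by
  have h' : (u : A) * u = 1 := congrArg Subtype.val h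
  have e : ((u : A) - 1) * (u - 1) = (-2 : ℂ) • ((u : A) - 1) := by
    rw [neg_smul, two_smul, sub_mul, mul_sub, h']; noncomm_ring
  have h2 := norm_mul_le ((u : A) - 1) (u - 1)
  rw [e, norm_smul] at h2
  have h3 : 0 < ‖(u : A) - 1‖ := norm_pos_iff.2 fun h0 => h1 (Subtype.ext (sub_eq_zero.1 h0))
  simp only [norm_neg, Complex.norm_ofNat] at h2
  nlinarith

end

lemma close (k : ℕ) (u v : ℕ → U k) (ε : ℝ) (hε : 0 < ε) :
    ∃ i j, i ≠ j ∧ ‖(u i).val - (u j).val‖ < ε ∧ ‖(v i).val - (v j).val‖ < ε := by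
  have := FiniteDimensional.proper ℂ (Matrix (Fin k) (Fin k) ℂ)
  have hb : ∀ w : U k, ‖w.val‖ ≤ ‖(1 : Matrix (Fin k) (Fin k) ℂ)‖ := fun w => by
    rw [← CStarRing.norm_coe_unitary_mul w 1, mul_one]
  obtain ⟨a, -, s, hs, ht⟩ := tendsto_subseq_of_bounded
    (Metric.isBounded_closedBall (x := (0 : Matrix (Fin k) (Fin k) ℂ × Matrix (Fin k) (Fin k) ℂ))
      (r := ‖(1 : Matrix (Fin k) (Fin k) ℂ)‖)) (x := fun i => ((u i).val, (v i).val))
    (fun i => by simpa [Prod.norm_def] using ⟨hb _, hb _⟩)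
  obtain ⟨N, hN⟩ := Metric.cauchySeq_iff'.1 ht.cauchySeq ε hε
  have := hN (N + 1) (Nat.le_succ N)
  rw [Prod.dist_eq, max_lt_iff, dist_eq_norm, dist_eq_norm] at this
  exact ⟨s (N + 1), s N, fun h => by simpa using hs.injective h, this⟩

theorem not_ms {K : Type} [Group K] (E : ℕ → Type) [∀ n, Group (E n)] [∀ n, Finite (E n)]
    (θ : ∀ n, K → E n) (hθ : ∀ g h, ∀ᶠ n in atTop, θ n (g * h) = θ n g * θ n h) (a c : K)
    (ha : ∀ n, θ n a = 1) (hc : ∀ n, θ n c ≠ 1) (hc2 : ∀ n, θ n c * θ n c = 1)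
    (hρ : ∀ k (ρ : K →* U k), ‖(ρ c).val - 1‖ ≤ 2 * ‖(ρ a).val - 1‖) : ¬ MS K := by
  classical
  intro hs
  let _ : ∀ n, Fintype (E n) := fun n => Fintype.ofFinite _
  let e := fun n => Fintype.equivFin (E n)
  let L : ∀ n, E n →* Equiv.Perm (Fin (Fintype.card (E n))) := fun n => MonoidHom.mk'
    (fun x => (e n).permCongr (MulAction.toPerm x)) (fun x y => by ext i; simp [mul_assoc])
  obtain ⟨ψ, hψ⟩ := hs (fun n => Fintype.card (E n)) (fun n => Fintype.card_pos)
    (fun n x => pu (L n (θ n x))) fun g h => by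
      refine tendsto_const_nhds.congr' ?_
      filter_upwards [hθ g h] with n hn
      simp [hn]
  obtain ⟨n, h1, h2⟩ := (((hψ a).eventually_lt_const (show (0 : ℝ) < 1 / 3 by norm_num)).and
    ((hψ c).eventually_lt_const (show (0 : ℝ) < 1 / 3 by norm_num))).exists
  have h3 := n_invol (pu (L n (θ n c))) (by rw [← map_mul, ← map_mul, hc2, map_one, map_one])
    fun h => hc n (by
      have h4 := congrArg (fun σ : Equiv.Perm _ => (e n).symm (σ (e n 1))) (pu_inj _ h)
      simpa [L] using h4)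
  have h4 := hρ _ (ψ n)
  rw [ha, map_one, map_one, norm_sub_rev] at h1
  have h5 := norm_sub_le_norm_sub_add_norm_sub (pu (L n (θ n c))).val (ψ n c).val 1
  have h6 : (1 : U (Fintype.card (E n))).val = 1 := rfl
  rw [h6] at h1
  linarith

open Pool.Agent.H.MP_94dfa5_al

theorem G_ws : WS G :=
  ws_of_retracts Gn (fun n => (rt n).codRestrict _ (rt_mem n))
    (fun n x => Subtype.ext (rt_eq n x x.2)) Gn_ev

theorem K_not_ms : ¬ MS K := by
  refine not_ms (fun n => Hs (βE n)) θ (fun g h => ?_) hh gg (fun n => ?_) (fun n h => ?_)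
    (fun n => ?_) fun k ρ => ?_
  · filter_upwards [Gn_ev h.left] with n hn using θ_mul n g h hn
  · ext <;> simp [θ, hh]
  · simpa [θ, gg] using congrArg Hs.z h
  · ext
    · simp [θ, gg]
    · simp [θ, gg]
    · simp [θ, gg, EB]; rfl
  · refine le_of_forall_pos_le_add fun ε hε => ?_
    obtain ⟨i, j, hij, h1, -⟩ := close k (fun i => ρ (ee i)) (fun i => ρ (ee i)) (ε / 2)
      (by linarith)
    rw [← rel1 i, map_mul]
    refine (n_mul _ _).trans (add_le_add ?_ ?_)
    · simp only [map_mul, map_inv]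
      exact n_comm _ 1 _ (by simp)
    · simp only [map_mul, map_inv]
      refine (n_comm _ (ρ (ee j)) _ (by rw [← map_mul, ← map_mul, rel2 i j hij])).trans ?_
      linarith

/-! the amalgam -/

abbrev Z := Multiplicative (k × W)

noncomputable def T : k × W →+ k × W := AddMonoidHom.mk' (fun z => (z.1 + Sm z.2, z.2))
  (fun a b => by ext <;> simp; ring)

lemma T_apply (z : k × W) : T z = (z.1 + Sm z.2, z.2) := rfl

lemma TT (z : k × W) : T (T z) = z := by
  ext
  · simp [T_apply, add_assoc, CharTwo.add_self_eq_zero]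
  · rfl

noncomputable def Tb : Bool → k × W →+ k × W
  | false => AddMonoidHom.id _
  | true => T

lemma TbTb (b : Bool) (z : k × W) : Tb b (Tb b z) = z := by
  cases b
  · rfl
  · exact TT z

noncomputable def emb (b : Bool) : Z →* G := MonoidHom.mk' (fun z => ⟨0, Tb b z.toAdd⟩)
  fun x y => by ext1 <;> simp [GB]

lemma emb_inj (b : Bool) : Function.Injective (emb b) := fun x y h => by
  have := congrArg (fun g : G => Tb b g.z) h
  simpa [emb, TbTb] using this

lemma emb_central (b : Bool) (z : Z) : emb b z ∈ Subgroup.center G := by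
  rw [Subgroup.mem_center_iff]
  intro g
  ext1 <;> simp [emb, GB, add_comm]

noncomputable def βL : Bi ((W × W) × (W × W)) (k × W) where
  B a b := βG.B a.1 b.1 + T (βG.B a.2 b.2)
  l a b c := by simp only [Prod.fst_add, Prod.snd_add, βG.l, map_add]; abel
  r a b c := by simp only [Prod.fst_add, Prod.snd_add, βG.r, map_add]; abel

lemma LB (a b : (W × W) × (W × W)) : βL.B a b = βG.B a.1 b.1 + T (βG.B a.2 b.2) := rfl

noncomputable def jj : Bool → G →* Hs βL
  | false => MonoidHom.mk' (fun x => ⟨(x.v, 0), x.z⟩) fun x y => by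
      ext1 <;> simp [LB, βG.zl]
  | true => MonoidHom.mk' (fun x => ⟨(0, x.v), T x.z⟩) fun x y => by
      ext1 <;> simp [LB, βG.zl]

abbrev Am := Monoid.PushoutI (G := fun _ => G) emb

noncomputable def toL : Am →* Hs βL := Monoid.PushoutI.lift jj
  (MonoidHom.mk' (fun z => ⟨0, z.toAdd⟩) fun x y => by ext1 <;> simp [βL.zl]) fun b => by
    cases b
    · rfl
    · exact MonoidHom.ext fun z => Hs.ext rfl (TT _)

def Ln (n : ℕ) : Subgroup (Hs βL) where
  carrier := {x | ∀ i, n ≤ i → x.v.1.1 i = 0 ∧ x.v.1.2 i = 0 ∧ x.v.2.1 i = 0 ∧ x.v.2.2 i = 0 ∧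
    x.z.2 i = 0}
  one_mem' := by simp
  mul_mem' := by
    intro a b ha hb i hi
    obtain ⟨h1, h2, h3, h4, h5⟩ := ha i hi
    obtain ⟨g1, g2, g3, g4, g5⟩ := hb i hi
    simp [LB, T_apply, GB, *]
  inv_mem' := by
    intro a ha i hi
    obtain ⟨h1, h2, h3, h4, h5⟩ := ha i hi
    simp [LB, T_apply, GB, *]

lemma Ln_ev (x : Hs βL) : ∀ᶠ n in atTop, x ∈ Ln n := by
  filter_upwards [W_ev x.v.1.1, W_ev x.v.1.2, W_ev x.v.2.1, W_ev x.v.2.2, W_ev x.z.2]
    with n h1 h2 h3 h4 h5 i hi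
  exact ⟨h1 i hi, h2 i hi, h3 i hi, h4 i hi, h5 i hi⟩

instance (n : ℕ) : Finite (Ln n) := by
  refine Finite.of_injective (fun x : Ln n => ((fun i : Fin n => x.1.v.1.1 i),
    (fun i : Fin n => x.1.v.1.2 i), (fun i : Fin n => x.1.v.2.1 i),
    (fun i : Fin n => x.1.v.2.2 i), x.1.z.1, (fun i : Fin n => x.1.z.2 i))) ?_
  rintro ⟨x, hx⟩ ⟨y, hy⟩ h
  simp only [Prod.mk.injEq] at h
  have key : ∀ u w : W, (∀ i, n ≤ i → u i = 0) → (∀ i, n ≤ i → w i = 0) →
      ((fun i : Fin n => u i) = fun i : Fin n => w i) → u = w := by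
    intro u w hu hw e
    ext i
    by_cases hi : i < n
    · exact congrFun e ⟨i, hi⟩
    · rw [hu i (by omega), hw i (by omega)]
  refine Subtype.ext (Hs.ext (Prod.ext (Prod.ext ?_ ?_) (Prod.ext ?_ ?_)) (Prod.ext h.2.2.2.2.1 ?_))
  · exact key _ _ (fun i hi => (hx i hi).1) (fun i hi => (hy i hi).1) h.1
  · exact key _ _ (fun i hi => (hx i hi).2.1) (fun i hi => (hy i hi).2.1) h.2.1
  · exact key _ _ (fun i hi => (hx i hi).2.2.1) (fun i hi => (hy i hi).2.2.1) h.2.2.1
  · exact key _ _ (fun i hi => (hx i hi).2.2.2.1) (fun i hi => (hy i hi).2.2.2.1) h.2.2.2.1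
  · exact key _ _ (fun i hi => (hx i hi).2.2.2.2) (fun i hi => (hy i hi).2.2.2.2) h.2.2.2.2.2

noncomputable def e' (i : ℕ) : G := ⟨(Finsupp.single i 1, 0), 0⟩
noncomputable def f' (i : ℕ) : G := ⟨(0, Finsupp.single i 1), 0⟩

lemma r1 (i : ℕ) : e' i * f' i * (e' i)⁻¹ * (f' i)⁻¹ = ⟨0, (0, Finsupp.single i 1)⟩ := by
  ext j <;> simp [e', f', GB, Finsupp.single_apply]

lemma r2 (i j : ℕ) (h : i ≠ j) : e' j * f' i = f' i * e' j := by
  ext l <;> simp [e', f', GB, Finsupp.single_apply]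
  omega

noncomputable def cc : Am := Monoid.PushoutI.base emb (Multiplicative.ofAdd (1, 0))

lemma cc_eq (i : ℕ) : cc = Monoid.PushoutI.of (φ := emb) true ⟨0, (0, Finsupp.single i 1)⟩ *
    Monoid.PushoutI.of (φ := emb) false ⟨0, (0, Finsupp.single i 1)⟩ := by
  have h1 : (⟨0, (0, Finsupp.single i 1)⟩ : G) =
      emb true (Multiplicative.ofAdd (1, Finsupp.single i 1)) := by
    ext1
    · rfl
    · simp [emb, Tb, T_apply, Sm]; rfl
  have h2 : (⟨0, (0, Finsupp.single i 1)⟩ : G) =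
      emb false (Multiplicative.ofAdd (0, Finsupp.single i 1)) := rfl
  conv_rhs => lhs; rw [h1]
  conv_rhs => rhs; rw [h2]
  rw [Monoid.PushoutI.of_apply_eq_base, Monoid.PushoutI.of_apply_eq_base, ← map_mul, cc]
  congr 1
  rw [← ofAdd_add]
  congr 1
  ext j
  · simp
  · simp [CharTwo.add_self_eq_zero]

theorem Am_not_ms : ¬ MS Am := by
  classical
  have hc : ∀ n, toL cc ∈ Ln n := fun n i _ => by simp [toL, cc]
  refine not_ms (fun n => Ln n) (fun n x => if h : toL x ∈ Ln n then ⟨_, h⟩ else 1)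
    (fun g h => ?_) 1 cc (fun n => ?_) (fun n h => ?_) (fun n => ?_) fun k ρ => ?_
  · filter_upwards [Ln_ev (toL g), Ln_ev (toL h), Ln_ev (toL (g * h))] with n h1 h2 h3
    simp only [dif_pos h1, dif_pos h2, dif_pos h3]
    exact Subtype.ext (map_mul _ _ _)
  · simp
  · rw [dif_pos (hc n)] at h
    simpa [toL, cc] using congrArg (fun x : Ln n => x.1.z.1) h
  · rw [dif_pos (hc n)]
    refine Subtype.ext ?_
    change toL cc * toL cc = 1
    ext1
    · simp [toL, cc]
    · simp [toL, cc, βL.zl]; rfl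
  · refine le_of_forall_pos_le_add fun ε hε => ?_
    obtain ⟨i, j, hij, h1, h2⟩ := close k
      (fun i => ρ (Monoid.PushoutI.of (φ := emb) true (e' i)))
      (fun i => ρ (Monoid.PushoutI.of (φ := emb) false (e' i))) (ε / 4) (by linarith)
    have key : ∀ b, ‖(ρ (Monoid.PushoutI.of (φ := emb) b ⟨0, (0, Finsupp.single i 1)⟩)).val - 1‖ ≤
        2 * ‖(ρ (Monoid.PushoutI.of (φ := emb) b (e' i))).val -
          (ρ (Monoid.PushoutI.of (φ := emb) b (e' j))).val‖ := fun b => by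
      rw [← r1 i]
      simp only [map_mul, map_inv]
      exact n_comm _ _ _ (by rw [← map_mul, ← map_mul, ← map_mul, ← map_mul, r2 i j hij])
    rw [cc_eq i, map_mul]
    refine (n_mul _ _).trans ?_
    have := key true
    have := key false
    have := norm_nonneg ((ρ 1).val - 1)
    linarith

end Pool.Agent.H.MP_e38963_al
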